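import Pool.Agent.Lib.MP_2e793b_nt.Iface

/-!
MP_2e793b_nt, row PER: periodicity of the letters.
-/

set_option autoImplicit false

namespace Pool.Agent.Lib.MP_2e793b_nt.H40

open Finset

section Words

variable {k : ℕ} (σ : Fin k → List (Fin k))

theorem F_app (l1 l2 : List (Fin k)) : F σ (l1 ++ l2) = F σ l1 ++ F σ l2 := by
  simp [F, List.flatMap_append]

theorem Fn_app (n : ℕ) (l1 l2 : List (Fin k)) :
    (F σ)^[n] (l1 ++ l2) = (F σ)^[n] l1 ++ (F σ)^[n] l2 := by
  induction n generalizing l1 l2 with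
  | zero => rfl
  | succ n ih => rw [Function.iterate_succ_apply, F_app, ih]; rfl

theorem Fn_nil (n : ℕ) : (F σ)^[n] [] = [] := by
  induction n with
  | zero => rfl
  | succ n ih => rw [Function.iterate_succ_apply]; exact ih

theorem F_single (y : Fin k) : F σ [y] = σ y := by
  simp [F]

theorem mem_Fn (n : ℕ) (l : List (Fin k)) (y : Fin k) (hy : y ∈ (F σ)^[n] l) :
    ∃ x ∈ l, y ∈ (F σ)^[n] [x] := by
  induction l with
  | nil =>
    rw [Fn_nil] at hy
    exact absurd hy (List.not_mem_nil)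
  | cons a l ih =>
    have h1 : a :: l = [a] ++ l := rfl
    rw [h1, Fn_app] at hy
    rcases List.mem_append.mp hy with h2 | h2
    · exact ⟨a, List.mem_cons_self, h2⟩
    · obtain ⟨x, hx, hxy⟩ := ih h2
      exact ⟨x, List.mem_cons_of_mem a hx, hxy⟩

theorem bdd_mem (n : ℕ) (x y : Fin k) (hx : Bdd σ x) (hy : y ∈ (F σ)^[n] [x]) : Bdd σ y := by
  obtain ⟨B, hB⟩ := hx
  refine ⟨B, fun m => ?_⟩
  obtain ⟨s, t, hst⟩ := List.append_of_mem hy
  have h1 := hB (m + n)
  rw [Function.iterate_add_apply, hst] at h1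
  have h2 : s ++ y :: t = s ++ ([y] ++ t) := rfl
  rw [h2, Fn_app, Fn_app, List.length_append, List.length_append] at h1
  omega

theorem bdd_list (P0 : ℕ) (hper : ∀ z : Fin k, Bdd σ z → ∀ n : ℕ, P0 ≤ n → ∀ t : ℕ,
    (F σ)^[n + t * P0] [z] = (F σ)^[n] [z]) (l : List (Fin k)) (hl : ∀ t ∈ l, Bdd σ t)
    (n : ℕ) (hn : P0 ≤ n) (t : ℕ) : (F σ)^[n + t * P0] l = (F σ)^[n] l := by
  induction l with
  | nil => rw [Fn_nil, Fn_nil]
  | cons a l ih =>
    have h1 : a :: l = [a] ++ l := rfl
    rw [h1, Fn_app, Fn_app, hper a (hl a List.mem_cons_self) n hn t,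
      ih (fun t ht => hl t (List.mem_cons_of_mem a ht))]

/-- Periodic points of a self-map of a finite set. -/
theorem cyc (f : Fin k → Fin k) (y : Fin k) : f^[k.factorial] (f^[k] y) = f^[k] y := by
  have h1 : ∃ i l : ℕ, i < l ∧ l ≤ k ∧ f^[i] y = f^[l] y := by
    obtain ⟨a, b, hab, he⟩ := Fintype.exists_ne_map_eq_of_card_lt
      (fun i : Fin (k + 1) => f^[(i : ℕ)] y) (by simp)
    rcases lt_or_gt_of_ne hab with h | h
    · exact ⟨a, b, h, by have := b.2; omega, he⟩
    · exact ⟨b, a, h, by have := a.2; omega, he.symm⟩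
  obtain ⟨i, l, hil, hlk, he⟩ := h1
  -- the period `l - i`
  have h2 : f^[l - i] (f^[i] y) = f^[i] y := by
    rw [← Function.iterate_add_apply, Nat.sub_add_cancel hil.le, he]
  have h3 : ∀ m : ℕ, f^[l - i] (f^[i + m] y) = f^[i + m] y := by
    intro m
    rw [add_comm i m, Function.iterate_add_apply, ← Function.iterate_add_apply, add_comm (l - i) m,
      Function.iterate_add_apply, h2]
  have h4 : f^[l - i] (f^[k] y) = f^[k] y := by
    have := h3 (k - i)
    rwa [Nat.add_sub_cancel' (by omega : i ≤ k)] at this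
  obtain ⟨c, hc⟩ : (l - i) ∣ k.factorial := Nat.dvd_factorial (by omega) (by omega)
  rw [hc, Function.iterate_mul]
  exact Function.iterate_fixed h4 c

end Words

theorem per (hB : BdpStmt) : PerStmt := by
  intro k σ w ⟨J0, hJ⟩
  classical
  obtain ⟨P0, hP0, hper⟩ := hB k σ
  -- the good letters
  let Good : Fin k → Prop := fun y => ¬ Bdd σ y ∧ ∃ j : ℕ, J0 ≤ j ∧ y ∈ (F σ)^[j] w
  have hdec : ∀ y : Fin k, Good y → ∃ (z : Fin k), Good z ∧ ∃ (p s : List (Fin k)),
      σ y = p ++ [z] ++ s ∧ (∀ t ∈ p, Bdd σ t) ∧ ∀ t ∈ s, Bdd σ t := by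
    rintro y ⟨hy, j, hj, hyj⟩
    obtain ⟨p, z, s, h1, h2, h3, h4⟩ := hJ j hj y hyj hy
    refine ⟨z, ⟨h2, j + 1, by omega, ?_⟩, p, s, h1, h3, h4⟩
    rw [Function.iterate_succ_apply']
    change z ∈ ((F σ)^[j] w).flatMap σ
    rw [List.mem_flatMap]
    refine ⟨y, hyj, ?_⟩
    rw [h1]
    simp
  have hpi : ∃ f : Fin k → Fin k, ∀ y, Good y → Good (f y) ∧ ∃ (p s : List (Fin k)),
      σ y = p ++ [f y] ++ s ∧ (∀ t ∈ p, Bdd σ t) ∧ ∀ t ∈ s, Bdd σ t := by
    refine ⟨fun y => if h : Good y then (hdec y h).choose else y, ?_⟩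
    intro y hy
    dsimp only
    rw [dif_pos hy]
    exact (hdec y hy).choose_spec
  obtain ⟨f, hf⟩ := hpi
  -- iterates
  have hit : ∀ (n : ℕ) (y : Fin k), Good y → Good (f^[n] y) ∧ ∃ (p s : List (Fin k)),
      (F σ)^[n] [y] = p ++ [f^[n] y] ++ s ∧ (∀ t ∈ p, Bdd σ t) ∧ ∀ t ∈ s, Bdd σ t := by
    intro n
    induction n with
    | zero =>
      intro y hy
      exact ⟨hy, [], [], by simp, by simp, by simp⟩
    | succ n ih =>
      intro y hy
      obtain ⟨h1, p, s, h2, h3, h4⟩ := hf y hy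
      obtain ⟨h5, p', s', h6, h7, h8⟩ := ih (f y) h1
      rw [Function.iterate_succ_apply]
      refine ⟨h5, (F σ)^[n] p ++ p', s' ++ (F σ)^[n] s, ?_, ?_, ?_⟩
      · rw [Function.iterate_succ_apply, F_single, h2, Fn_app, Fn_app, h6]
        simp [List.append_assoc]
      · intro t ht
        rcases List.mem_append.mp ht with h9 | h9
        · obtain ⟨x, hx, hxt⟩ := mem_Fn σ n p t h9
          exact bdd_mem σ n x t (h3 x hx) hxt
        · exact h7 t h9
      · intro t ht
        rcases List.mem_append.mp ht with h9 | h9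
        · exact h8 t h9
        · obtain ⟨x, hx, hxt⟩ := mem_Fn σ n s t h9
          exact bdd_mem σ n x t (h4 x hx) hxt
  have hPle : P0 ≤ P0 * k.factorial := Nat.le_mul_of_pos_right P0 k.factorial_pos
  have hbl : ∀ l : List (Fin k), (∀ t ∈ l, Bdd σ t) →
      (F σ)^[P0 * k.factorial] ((F σ)^[P0 * k.factorial] l) = (F σ)^[P0 * k.factorial] l := by
    intro l hl
    rw [← Function.iterate_add_apply]
    have h1 := bdd_list σ P0 hper l hl (P0 * k.factorial) hPle k.factorial
    rw [mul_comm k.factorial P0] at h1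
    exact h1
  refine ⟨J0 + k, P0 * k.factorial, ?_, ?_⟩
  · exact le_trans hP0 hPle
  · intro j hj y hy
    by_cases hby : Bdd σ y
    · left
      apply hbl
      intro t ht
      rw [List.mem_singleton] at ht
      rw [ht]
      exact hby
    · right
      -- `y` is a `k`-th image
      have h1 : j = k + (j - k) := by omega
      rw [h1, Function.iterate_add_apply] at hy
      obtain ⟨y1, hy1, hyy⟩ := mem_Fn σ k _ y hy
      have hg1 : Good y1 := ⟨fun h2 => hby (bdd_mem σ k y1 y h2 hyy), j - k, by omega, hy1⟩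
      obtain ⟨hg, p, s, h2, h3, h4⟩ := hit k y1 hg1
      have hyf : y = f^[k] y1 := by
        rw [h2] at hyy
        rcases List.mem_append.mp hyy with h5 | h5
        · rcases List.mem_append.mp h5 with h6 | h6
          · exact absurd (h3 y h6) hby
          · exact List.mem_singleton.mp h6
        · exact absurd (h4 y h5) hby
      have hgy : Good y := by rw [hyf]; exact hg
      have hfix : f^[P0 * k.factorial] y = y := by
        rw [hyf, mul_comm, Function.iterate_mul]
        exact Function.iterate_fixed (cyc f y1) P0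
      obtain ⟨-, p', s', h5, h6, h7⟩ := hit (P0 * k.factorial) y hgy
      rw [hfix] at h5
      exact ⟨p', s', h5, hbl p' h6, hbl s' h7⟩

end Pool.Agent.Lib.MP_2e793b_nt.H40
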